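import Mathlib
import Pool.Agent.H.MP_6e75db_lc.A

set_option autoImplicit false

namespace Pool.Agent.Results.MP_6e75db_lc.Yes

open Cardinal Ordinal Pool.Agent.H.MP_6e75db_lc

theorem result : ∃ (S : Type) (_ : PartialOrder S) (h : S → (ω₁ : Ordinal.{0}).ToType),
    Tr S h ∧ Nm S h ∧ #S ≤ ℵ₁ ∧ (∀ C : Set S, IsChain (· ≤ ·) C → C.Countable) ∧
      (∃ f : S → ℚ, StrictMono f) ∧
        ∀ (T : Type) [PartialOrder T] (k : T → (ω₁ : Ordinal.{0}).ToType), Tr T k →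
          (∀ a, (k ⁻¹' {a}).Countable) →
            ¬ ∃ e : S → T, e.Injective ∧ ∀ s t, s < t ↔ e s < e t :=
  main

end Pool.Agent.Results.MP_6e75db_lc.Yes
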